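import Pool.Agent.Helper48.AED.Spec

/-!
# MP_8e9e20_co: part EQ1
-/

set_option autoImplicit false

namespace Pool.Agent.Helper34.AED.EQ1

open Finset Pool.AED48

theorem main : S_EQ1 := by
  intro n d A μ U hG hS hn hμ
  have hsq : ∀ i j, ∑ k, A i k * A k j = if i = j then 1 else 0 := by
    intro i j
    rw [hS.sq i j, ← hS.orth' i j]
    refine Finset.sum_congr rfl fun a _ => ?_
    rcases hμ a with h | h <;> rw [h] <;> ring
  have hoff : ∀ k k' i, k ≠ k' → A i k * A i k' = 0 := by
    intro k k' i hk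
    have h := hsq k k'
    rw [if_neg hk] at h
    have hz := (Finset.sum_eq_zero_iff_of_nonneg (fun l _ =>
      mul_nonneg (hG.nonneg k l) (hG.nonneg l k'))).1 h i (Finset.mem_univ i)
    rw [hG.symm i k]; exact hz
  have h1 := hsq ⟨0, hn⟩ ⟨0, hn⟩
  rw [if_pos rfl] at h1
  set i : Fin n := ⟨0, hn⟩
  have hex : ∃ k, A i k ≠ 0 := by
    by_contra hne
    push Not at hne
    rw [Finset.sum_eq_zero (fun k _ => by rw [hne k, zero_mul])] at h1
    exact zero_ne_one h1
  obtain ⟨k, hk⟩ := hex
  have hz : ∀ l, l ≠ k → A i l = 0 := by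
    intro l hl
    rcases mul_eq_zero.1 (hoff l k i hl) with h | h
    · exact h
    · exact absurd h hk
  rw [Finset.sum_eq_single k (fun l _ hl => by rw [hz l hl, zero_mul])
    (fun h => absurd (Finset.mem_univ k) h), ← hG.symm i k] at h1
  have h2 := hG.lt_one i k
  have h3 := hG.nonneg i k
  nlinarith

end Pool.Agent.Helper34.AED.EQ1
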